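import Pool.Agent.Q9h3.MC.Part3

/-!
# If `M[1] = W[1]`, then the nondeterministic exponential time hypothesis fails non-uniformly

If `M[1] = W[1]`, then p-CLIQUE has an fpt-reduction to p-log-SAT for formulas of bounded width, so to formulas
with few possible clauses. From any reduction of p-CLIQUE to satisfiability of such formulas, even a
co-nondeterministic Turing reduction with advice which asks `N ^ (1 - ε)` queries, we get certificates of fpt size
for the graphs without a clique of size `k`, and from them certificates of size `2 ^ (ε n)`, for every `ε > 0`,
for the unsatisfiability of formulas of width `d` in `n` variables, both checked in polynomial time with an advice
of this size.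

Proof. A disjoint union of `T` graphs has a clique of size `k` if and only if one of the graphs has. The queries
of a run on such a union and their answers, written in a canonical form, are a transcript with fewer than `T` bits
in all. By the covering argument of Fortnow and Santhanam, some `n ^ 2 + 1` transcripts suffice for every graph
without a clique of size `k` to be a member of a family of `T` graphs whose union has a rejecting run with one of
these transcripts; they are given as an advice, and the certificate is the family and the guess of the run.
-/

namespace Pool.Agent.Results.MP_ddf912_lc.CollapseRefutesNETH

open Pool.Agent.Q9h3.MC

/-- (1) If `M[1] = W[1]`, then p-CLIQUE has a reduction to satisfiability questions for formulas with `N ^ (o(1))`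
possible clauses, with at most `t k * N ^ (1 - ε)` queries. (2) There is such a reduction if and only if there are
non-uniform certificates of fpt size for clique-freeness. (3) In this case there are non-uniform certificates of
subexponential size for unsatisfiability, for every bound for the length of the clauses. -/
theorem result :
    (M1EqW1 → FewQueries) ∧ (FewQueries ↔ CliqueFreeCert) ∧ (FewQueries → SubexpCert) :=
  ⟨M1EqW1.fewQueries, ⟨part1, part0⟩, fun h => part2 (part1 h)⟩

end Pool.Agent.Results.MP_ddf912_lc.CollapseRefutesNETH
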