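import Pool.Agent.H5Red.Final2
import Pool.Agent.H5Red.Alp
import Pool.Agent.H5Red.Gud2
import Pool.Agent.H5Red.Two
import Pool.Agent.H5Red.Ext
import Pool.Agent.H5Red.Zc
import Pool.Agent.H5Red.Num3
import Pool.Agent.H5Red.Gro3

/-!
# `p-CLIQUE` has no equivariant fpt Turing reduction to `p-log-SAT`

The equality `M[1] = W[1]` says that `p-CLIQUE` is fpt-reducible to the satisfiability of `d`-CNF formulas
with `k log M` variables, where `M` is the size and `k` the parameter. We consider graphs with `K` classes
of `N = 2 ^ m` vertices each; the parameter is `K`, and a clique with one vertex in each class is looked for. The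
group `(F_2 ^ m) ^ K` acts on the vertices by translations of the classes. A reduction is given by
circuits (nonuniform) on which this group acts. The circuits have arbitrary symmetric gates (functions of the
multiset of the labelled values of the wires) and matrix gates over fields of characteristic different
from two (all functions of matrices that are invariant under orthogonal changes of basis, such as the rank
and the determinant).

(1) Every equivariant reduction of the clique problem to any other problem, with size less than
`2 ^ (- K) N ^ (K / c)`, has at least `2 ^ (- c K) N ^ 2` output gates, as many as the trivial reduction up to the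
constant factor `2 ^ (c K)`. In particular to decide the clique problem the size `2 ^ (- K) N ^ (K / c)` is
necessary.

(2) The bound for the size remains true up to the factor `(R + 1) ^ K` if the circuits have arbitrary
oracle gates with at most `R` wires, in any number of adaptive rounds.

(3) Since there are at most `(2 L + 1) ^ d` clauses with at most `d` literals over `L = g (K) (log N + 1)`
variables, an instance of `p-log-SAT` for the fixed `d` is given by polylogarithmically many bits; so there
is no equivariant fpt Turing reduction of `p-CLIQUE` to `p-log-SAT`.

Proof idea. Between the classes, which correspond to the vertices of a bipartite cubic graph, the edges are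
given by equations between two linear functions on the classes over the field with two elements; there is a
clique only if the sum of the right-hand sides is zero. The linear functions `α` are chosen at random; a
functional on the group of medium weight depends on many classes, and agrees with a given functional with
probability `N ^ (- K / c)`, so it is not seen by any gate, and also it is not a sum of functionals which are
seen by the gates that an oracle gate reads; so the set of the small functionals seen by them is closed
under sums, and a change of the parameters that is not seen can be undone by a single group element for all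
wires of an oracle gate. A functional that depends on at least two classes agrees with a given one with
probability at most `N ^ (- 2)`, so the output gates in (1) do not see anything at all if there are fewer than
`2 ^ (- c K) N ^ 2`; and no functional in question depends on one class only.
-/

set_option autoImplicit false

namespace Pool.Agent.Results.MP_ddf912_lc.EquivariantReductions

open Pool.Agent.H5Sym Pool.Agent.H5Lin Pool.Agent.H5Red

universe u

/-- **Theorem.** There is a constant `c` with the following properties.
(1) Let `K = |β| ≥ c` and `N = 2 ^ m`. Let the group `β → F_2 ^ m` act on a circuit with symmetric gates and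
matrix gates (no field of characteristic two) for graphs with the vertices `β × F_2 ^ m`, and let `O` be a
set of gates which is mapped into itself. If the values of the gates in `O` determine, by some predicate
`Q`, whether the `K`-partite graph `x` has a clique with one vertex in each class, then
`N ^ K ≤ (2 ^ K * s) ^ c`, where `s` is the number of gates and rows, or `N ^ 2 ≤ 2 ^ (c K) * |O|`.
(2) Let the circuit have oracle gates, a set `J` of them, each of which reads at most `R` gates, with the
answers as further inputs, such that the group acts on the whole. If the output after `r` rounds decides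
whether `x` has a clique with one vertex in each class, then `N ^ K ≤ (2 ^ K * (R + 1) ^ K * (s + |J|)) ^ c`.
(3) For all `c₀, d, f, g` and `K ≥ c (c₀ + 2)` and all large `m` this is impossible for
`s + |J| ≤ f * N ^ c₀` and `R = (g * (m + 1)) ^ d`. -/
theorem result :
    ∃ c : ℕ, 0 < c ∧
    (∀ (β : Type) [Finite β] (m : ℕ) (D : Type u)
      (C : LCircuit.{0, u} ((β × (Fin m → F2)) × (β × (Fin m → F2))) D) [Finite C.Gate],
      C.OddFields → ∀ (inp : Bool → D)
      (act : C.Action fun v : β → (Fin m → F2) => pairPerm (trans v)) (O : Set C.Gate),
      (∀ v, ∀ g ∈ O, act.gate v g ∈ O) → ∀ Q : (O → D) → Prop,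
      (∀ x, Partite x → (Q (fun g => C.eval (inp ∘ x) g.1) ↔ HasClique x)) →
      c ≤ Nat.card β →
      2 ^ (m * Nat.card β) ≤ (2 ^ Nat.card β * C.size) ^ c ∨
        2 ^ (2 * m) ≤ 2 ^ (c * Nat.card β) * Nat.card O) ∧
    (∀ (β : Type) [Finite β] (m : ℕ) (D : Type u)
      (M : OracleCircuit ((β × (Fin m → F2)) × (β × (Fin m → F2))) D) [Finite M.C.Gate]
      [Finite M.J], M.C.OddFields → ∀ (inp : Bool → D)
      (_ : M.Action fun v : β → (Fin m → F2) => pairPerm (trans v)) (R : ℕ),
      (∀ j, (M.args j).ncard ≤ R) → ∀ (r : ℕ) (acc : D → Prop),
      (∀ x, Partite x → (acc (M.output r (inp ∘ x)) ↔ HasClique x)) → c ≤ Nat.card β →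
      2 ^ (m * Nat.card β) ≤
        (2 ^ Nat.card β * (R + 1) ^ Nat.card β * (M.C.size + Nat.card M.J)) ^ c) ∧
    ∀ c₀ d f g K : ℕ, c * (c₀ + 2) ≤ K → ∃ m₀ : ℕ, ∀ m, m₀ ≤ m → ∀ (D : Type u)
      (M : OracleCircuit ((Fin K × (Fin m → F2)) × (Fin K × (Fin m → F2))) D)
      [Finite M.C.Gate] [Finite M.J], M.C.OddFields → ∀ (inp : Bool → D)
      (_ : M.Action fun v : Fin K → (Fin m → F2) => pairPerm (trans v)),
      M.C.size + Nat.card M.J ≤ f * 2 ^ (m * c₀) →
      (∀ j, (M.args j).ncard ≤ (g * (m + 1)) ^ d) → ∀ (r : ℕ) (acc : D → Prop),
      ¬ ∀ x, Partite x → (acc (M.output r (inp ∘ x)) ↔ HasClique x) :=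
  final2 t_ALP t_GUD2 t_TWO t_EXT t_ZC t_NUM3 t_GRO3

end Pool.Agent.Results.MP_ddf912_lc.EquivariantReductions
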