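import Pool.Agent.H20NC.Fin

/-!
# `M[1]` and `W[1]`: the exact number of changes of an oracle that separate them
-/

set_option autoImplicit false

namespace Pool.Agent.Results.MP_ddf912_lc.ExactNumberOfChanges

open Filter MeasureTheory Pool.Agent.NPC Pool.Agent.H620R2.Gauge Pool.Agent.TH678.GC
  Pool.Agent.Y626.WG
open Pool.Agent.Y626.WC (InFPT)
open Pool.Agent.Y626.WX (InM1)
open Pool.Agent.Y581.WN (InM1n)
open Pool.Agent.H20RD (rnd)
open Pool.Agent.H20PW (InFPTn)
open Pool.Agent.W900.CH (Close)
open Pool.Agent.W900.RB (Super)

/-- `Close g O A` says that, for all large `n`, the oracles `O` and `A` differ in at most `g n`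
strings of length at most `n`; `Super g` says that the infimum of the numbers `g m`, `m ≥ n`, is
not polynomially bounded in `n`.

(1) If `Super g` then near every oracle `O`, within the distance `g`, there is an oracle `A`
relative to which the model-checking problem for existential sentences is in `W[1]` but not in
`M[1]`, not even in a wide nonuniform form of `M[1]`.

(2) There is an oracle `O` such that `W[1] = FPT` (and hence `W[1]` is contained in `M[1]`)
relative to every oracle `A` within the distance `g` of `O`, for every `g` without `Super g`.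

(3) Let every string of length `n` be in the random oracle `A` with probability `p n`,
independently, where `p` is an arbitrary sequence, and let `w n = min (p n) (1 - p n)`.
If there is `δ > 0` with `w n ≤ n ^ (-δ)` for infinitely many `n` then, for every oracle `E`, for
almost every `A` and every `g` that tends to infinity, however slowly, there is `A'` within the
distance `g` of `A` such that (relative to the disjoint union of `A'` and `E`) `W[1]` is not
contained in `M[1]`, as in (1).
If there is no such `δ` then there is an oracle `E` such that for almost every `A`, every `g`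
without `Super g` and every `A'` within the distance `g` of `A`, relative to the disjoint union of
`A'` and `E` all problems in `W[1]` are nonuniformly fixed-parameter tractable, and hence in the
nonuniform form of `M[1]`; if `Super g` then, for all `A` and `E`, there is `A'` within the
distance `g` of `A` such that, relative to the disjoint union of `A'` and `E`, `W[1]` is not
contained in `M[1]`, as in (1). -/
theorem result :
    (∀ g : ℕ → ℝ, Super g → ∀ O : Oracle, ∃ A : Oracle, Close g O A ∧
      InW 1 A (fun I : WInst 1 => I.1.param) (fun I => I.1.Sat A) ∧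
      ¬ InM1n A (fun I : WInst 1 => I.1.param) (fun I => I.1.Sat A)) ∧
    (∃ O : Oracle, ∀ g : ℕ → ℝ, ¬ Super g → ∀ A : Oracle, Close g O A →
      ∀ (α : Type) [TEnc α] (κ : α → ℕ) (P : α → Prop),
        (InW 1 A κ P ↔ InFPT A κ P) ∧ (InW 1 A κ P → InM1 A κ P)) ∧
    (∀ p : ℕ → unitInterval,
      ((∃ δ : ℝ, 0 < δ ∧ ∃ᶠ n : ℕ in atTop, min (p n : ℝ) (1 - p n) ≤ (n : ℝ) ^ (-δ)) →
        ∀ E : Oracle, ∀ᵐ A ∂(rnd fun x => p x.length), ∀ g : ℕ → ℝ, Tendsto g atTop atTop →
          ∃ A' : Oracle, Close g A A' ∧
            InW 1 (join A' E) (fun I : WInst 1 => I.1.param) (fun I => I.1.Sat (join A' E)) ∧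
            ¬ InM1n (join A' E) (fun I : WInst 1 => I.1.param)
              (fun I => I.1.Sat (join A' E))) ∧
      ((∀ δ : ℝ, 0 < δ → ∀ᶠ n : ℕ in atTop, (n : ℝ) ^ (-δ) < min (p n : ℝ) (1 - p n)) →
        (∃ E : Oracle, ∀ᵐ A ∂(rnd fun x => p x.length), ∀ g : ℕ → ℝ, ¬ Super g →
          ∀ A' : Oracle, Close g A A' → ∀ (α : Type) [TEnc α] (κ : α → ℕ) (P : α → Prop),
            InW 1 (join A' E) κ P → InFPTn (join A' E) κ P ∧ InM1n (join A' E) κ P) ∧
        ∀ (E A : Oracle) (g : ℕ → ℝ), Super g → ∃ A' : Oracle, Close g A A' ∧
          InW 1 (join A' E) (fun I : WInst 1 => I.1.param) (fun I => I.1.Sat (join A' E)) ∧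
          ¬ InM1n (join A' E) (fun I : WInst 1 => I.1.param)
            (fun I => I.1.Sat (join A' E)))) :=
  Pool.Agent.H20NC.final

end Pool.Agent.Results.MP_ddf912_lc.ExactNumberOfChanges
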