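import Pool.Agent.HM94.NI.Avoid

/-!
# `M[1]` and `W[1]`: which possible edges must be negated by a reduction?

Let `H` be a set of possible edges of a graph with `n` vertices. We consider reductions of `p-CLIQUE`
to `p-log-SAT(Γ_{1,d})` that are computed by Boolean circuits (nonuniform, of size `f k * n ^ c`)
which do not negate the inputs of `H`: NOT gates are only applied to functions that do not depend on
the inputs of `H`. So all functions of the other inputs may be computed in any way, and for `H = ∅` the
circuits are arbitrary. If `W[1] = M[1]`, then there are such reductions for `H = ∅`. For larger sets `H`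
the following is shown.

* If `|H| = n ^ o(1)`, then negations of the inputs of `H` are not needed: every reduction can be
  replaced by one with `n ^ o(1)` questions (a truth-table reduction) which does not negate the inputs
  of `H`, at the cost of a factor `n ^ o(1)` for the size.
* If `|H| ≥ n ^ ε`, whatever the set `H` is, then there are no reductions of size `f k * n ^ c` that do
  not negate the inputs of `H`, if `k` is large. This holds also for truth-table reductions with
  `n ^ α` questions, with `α * log n` unrestricted NOT gates in addition, and for randomised reductions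
  which are right with probability `1 / 2 + n ^ (-α)` only, where `α > 0` depends on `ε` and `c` only. It
  suffices to consider the graphs with certain fixed values of the inputs outside of `H`.

More generally, in the second case a graph cannot be compressed to `n ^ α` bits by such circuits so that
the answer is determined by these bits.

The proof: `H` contains a sunflower (a star or a matching) with `n ^ β` members. The possible edges in it
stand for the inputs of a constraint satisfaction problem with a bounded number of variables and with
values from a set of size `n ^ β'`, whose solutions correspond to the cliques; all other inputs are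
fixed. The lower bound for circuits with monotone gates and few further gates is from the library; the
arbitrary evaluation of the answers to the questions is one further gate with few inputs.
-/

set_option autoImplicit false

namespace Pool.Agent.Results.MP_ddf912_lc.NegatedInputs

open Finset

/-- The possible edges of a graph with the vertices `0, ..., n - 1`. -/
abbrev Edge (n : ℕ) : Type := {e : Finset (Fin n) // e.card = 2}

/-- The graph `x` (with the edges `e` such that `x e = true`) has a clique with `k` vertices. -/
def HasClique {n : ℕ} (k : ℕ) (x : Edge n → Bool) : Prop :=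
  ∃ S : Finset (Fin n), S.card = k ∧ ∀ e : Edge n, e.1 ⊆ S → x e = true

/-- The functions that are available after the functions of the list `L` have been computed: the
members of `L`, the constants and the inputs. -/
def Available {E : Type} (L : List ((E → Bool) → Bool)) (f : (E → Bool) → Bool) : Prop :=
  f ∈ L ∨ (∃ c : Bool, f = fun _ => c) ∨ ∃ e : E, f = fun x => x e

/-- Boolean circuits (straight-line programs) with AND, OR and NOT gates of fan-in at most two, one
gate for each member of the list, in which the inputs of `H` are not negated, except for `t`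
unrestricted NOT gates: all other NOT gates are applied to functions that do not depend on the inputs
of `H`. For `H = ∅` and `t = 0` these are all Boolean circuits. -/
inductive BooleanCircuit {E : Type} (H : Set E) : ℕ → List ((E → Bool) → Bool) → Prop
  | nil : BooleanCircuit H 0 []
  | and {t L f g} (hL : BooleanCircuit H t L) (hf : Available L f) (hg : Available L g) :
      BooleanCircuit H t ((fun x => f x && g x) :: L)
  | or {t L f g} (hL : BooleanCircuit H t L) (hf : Available L f) (hg : Available L g) :
      BooleanCircuit H t ((fun x => f x || g x) :: L)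
  | not {t L f} (hL : BooleanCircuit H t L) (hf : Available L f)
      (hH : ∀ x x' : E → Bool, (∀ e ∉ H, x e = x' e) → f x = f x') :
      BooleanCircuit H t ((fun x => !f x) :: L)
  | unrestrictedNot {t L f} (hL : BooleanCircuit H t L) (hf : Available L f) :
      BooleanCircuit H (t + 1) ((fun x => !f x) :: L)

/-- The possible clauses with at most `d` literals in `v` variables; `(j, true)` is the variable `j`,
and `(j, false)` its negation. -/
abbrev Clause (v d : ℕ) : Type := {C : Finset (Fin v × Bool) // C.card ≤ d}

/-- The formula with the clauses `C` such that `F C = true` is satisfiable. -/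
def Satisfiable {v d : ℕ} (F : Clause v d → Bool) : Prop :=
  ∃ a : Fin v → Bool, ∀ C, F C = true → ∃ l ∈ C.1, a l.1 = l.2

/-- A truth-table reduction for graphs with `n` vertices to satisfiability of formulas with clauses of
at most `d` literals in `v` variables. It asks `Q` questions; `bit i C x` says whether the clause `C`
belongs to the `i`-th formula for the graph `x`, and `evaluate` is an arbitrary function of the
answers. The bits are computed by a circuit with at most `s` gates in which the inputs of `H` are not
negated, except for `t` unrestricted NOT gates. (Many-one reductions: `Q = 1` and `evaluate A` is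
`A 0`.) -/
structure Reduction (n : ℕ) (H : Set (Edge n)) (t s Q v d : ℕ) where
  gates : List ((Edge n → Bool) → Bool)
  circuit : BooleanCircuit H t gates
  size : gates.length ≤ s
  bit : Fin Q → Clause v d → (Edge n → Bool) → Bool
  available : ∀ i C, Available gates (bit i C)
  evaluate : (Fin Q → Prop) → Prop

/-- The reduction gives the right answer for the graph `x`. -/
def Reduction.RightOn {n : ℕ} {H : Set (Edge n)} {t s Q v d : ℕ} (A : Reduction n H t s Q v d)
    (k : ℕ) (x : Edge n → Bool) : Prop :=
  A.evaluate (fun i => Satisfiable (fun C => A.bit i C x)) ↔ HasClique k x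

/-- A compression of the graphs with `n` vertices to `N` bits, with an arbitrary decision function. -/
structure Compression (n : ℕ) (H : Set (Edge n)) (t : ℕ) (s : ℝ) (N : ℕ) where
  gates : List ((Edge n → Bool) → Bool)
  circuit : BooleanCircuit H t gates
  size : gates.length ≤ s
  bit : Fin N → (Edge n → Bool) → Bool
  available : ∀ i, Available gates (bit i)
  decision : (Fin N → Bool) → Prop

/-- The compression determines the right answer for the graph `x`. -/
def Compression.RightOn {n : ℕ} {H : Set (Edge n)} {t : ℕ} {s : ℝ} {N : ℕ}
    (A : Compression n H t s N) (k : ℕ) (x : Edge n → Bool) : Prop :=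
  A.decision (fun i => A.bit i x) ↔ HasClique k x

lemma toProgram {E : Type} {H : Set E} {t : ℕ} {L : List ((E → Bool) → Bool)}
    (h : BooleanCircuit H t L) : Pool.Agent.HM94.NI.TProg H t L := by
  induction h with
  | nil => exact .nil
  | and _ hf hg ih => exact .and ih hf hg
  | or _ hf hg ih => exact .or ih hf hg
  | not _ hf hH ih => exact .not ih hf hH
  | unrestrictedNot _ hf ih => exact .freeNot ih hf

lemma ofProgram {E : Type} {H : Set E} {t : ℕ} {L : List ((E → Bool) → Bool)}
    (h : Pool.Agent.HM94.NI.TProg H t L) : BooleanCircuit H t L := by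
  induction h with
  | nil => exact .nil
  | and _ hf hg ih => exact .and ih hf hg
  | or _ hf hg ih => exact .or ih hf hg
  | not _ hf hH ih => exact .not ih hf hH
  | freeNot _ hf ih => exact .unrestrictedNot ih hf

lemma card_edges {n : ℕ} (S : Finset (Fin n)) :
    (univ.filter fun e : Edge n => e.1 ⊆ S).card ≤ S.card.choose 2 := by
  classical
  rw [← Finset.card_powersetCard]
  apply Finset.card_le_card_of_injOn (fun e : Edge n => e.1)
  · intro e he
    rw [Finset.mem_coe, Finset.mem_powersetCard]
    exact ⟨(mem_filter.mp he).2, e.2⟩
  · intro e _ e' _ h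
    exact Subtype.ext h

/-- `H` is a set of possible edges of a graph with `n` vertices.

(1) For all `ε > 0` and `c` there are `k0` and `α > 0` such that for all `k ≥ k0`, for all large `n` and
for each `H` with `|H| ≥ n ^ ε` there is an assignment `o` of values to the inputs outside of `H` such
that every random compression (`A ρ`, with `ρ` uniformly distributed in a finite set) of size at most
`n ^ c` to `N` bits in which the inputs of `H` are not negated, except for `t` unrestricted NOT gates,
where `(N + 1) * 2 ^ t ≤ n ^ α`, determines the right answer with probability less than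
`1 / 2 + n ^ (-α)` for some graph that agrees with `o` outside of `H`.

(2) The same holds for truth-table reductions to `p-log-SAT(Γ_{1,d})`: for all `ε > 0` and `c` there are
`k0` and `α > 0` such that for all `k ≥ k0` and all `F`, `G`, `d` (which may depend on `k`), for all
large `n` and for each `H` with `|H| ≥ n ^ ε` there is `o` such that every random reduction of size at
most `F * n ^ c` with `Q` questions and `v ≤ G * (log n + 1)` variables in which the inputs of `H` are
not negated, except for `t` unrestricted NOT gates, where `(Q + 1) * 2 ^ t ≤ n ^ α`, is right with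
probability less than `1 / 2 + n ^ (-α)` for some graph that agrees with `o` outside of `H`.

(3) Conversely, if some reduction with `Q` questions of size `s` is always right, then for each `H`
there is a reduction in which the inputs of `H` are not negated, with the same number of variables, that
asks `(|H| + 1) ^ m * (Q + 1)` questions, has size at most `(|H| + 1) ^ m * (s + m)` and is always right,
where `m` is the number of the edges of a clique with `k` vertices. -/
theorem result :
    (∀ ε : ℝ, 0 < ε → ∀ c : ℝ, ∃ k0 : ℕ, ∃ α : ℝ, 0 < α ∧ ∀ k, k0 ≤ k → ∃ n0 : ℕ, ∀ n, n0 ≤ n →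
      ∀ H : Set (Edge n), (n : ℝ) ^ ε ≤ H.ncard →
      ∃ o : Edge n → Bool,
      ∀ (R : Type) [Finite R] [Nonempty R] (t N : ℕ) (A : R → Compression n H t ((n : ℝ) ^ c) N),
        (((N + 1) * 2 ^ t : ℕ) : ℝ) ≤ (n : ℝ) ^ α →
        ∃ x : Edge n → Bool, (∀ e ∉ H, x e = o e) ∧
          (Nat.card {ρ : R // (A ρ).RightOn k x} : ℝ) < (1 / 2 + (n : ℝ) ^ (-α)) * Nat.card R) ∧
    (∀ ε : ℝ, 0 < ε → ∀ c : ℕ, ∃ k0 : ℕ, ∃ α : ℝ, 0 < α ∧ ∀ k, k0 ≤ k → ∀ F G d : ℕ,
      ∃ n0 : ℕ, ∀ n, n0 ≤ n → ∀ H : Set (Edge n), (n : ℝ) ^ ε ≤ H.ncard →
      ∃ o : Edge n → Bool,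
      ∀ (R : Type) [Finite R] [Nonempty R] (t Q v : ℕ) (A : R → Reduction n H t (F * n ^ c) Q v d),
        v ≤ G * (Nat.log 2 n + 1) → (((Q + 1) * 2 ^ t : ℕ) : ℝ) ≤ (n : ℝ) ^ α →
        ∃ x : Edge n → Bool, (∀ e ∉ H, x e = o e) ∧
          (Nat.card {ρ : R // (A ρ).RightOn k x} : ℝ) < (1 / 2 + (n : ℝ) ^ (-α)) * Nat.card R) ∧
    (∀ (n k s Q v d : ℕ) (A : Reduction n ∅ 0 s Q v d), (∀ x, A.RightOn k x) →
      ∀ H : Set (Edge n), ∃ A' : Reduction n H 0 ((H.ncard + 1) ^ k.choose 2 * (s + k.choose 2))
        ((H.ncard + 1) ^ k.choose 2 * (Q + 1)) v d, ∀ x, A'.RightOn k x) := by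
  classical
  refine ⟨?_, ?_, ?_⟩
  · intro ε hε c
    obtain ⟨k0, α, hα, -, h⟩ := Pool.Agent.HM94.NI.no_compression 2 le_rfl ε hε c
    refine ⟨k0, α, hα, ?_⟩
    intro k hk
    obtain ⟨n0, h⟩ := h k hk
    refine ⟨n0, ?_⟩
    intro n hn H hH
    obtain ⟨o, h⟩ := h n hn H hH
    refine ⟨o, ?_⟩
    intro R _ _ t N A hfr
    let _ : Fintype R := Fintype.ofFinite R
    obtain ⟨x, hx1, hx2⟩ := h R t N (fun ρ => (A ρ).gates) (fun ρ => (A ρ).bit)
      (fun ρ => (A ρ).decision) (fun ρ => toProgram (A ρ).circuit) (fun ρ => (A ρ).size)
      (fun ρ => (A ρ).available) hfr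
    refine ⟨x, hx1, ?_⟩
    rw [Nat.card_eq_fintype_card (α := R)]
    exact hx2
  · intro ε hε c
    obtain ⟨k0, α, hα, h⟩ := Pool.Agent.HM94.NI.no_reduction 2 le_rfl ε hε c
    refine ⟨k0, α, hα, ?_⟩
    intro k hk F G d
    obtain ⟨n0, h⟩ := h k hk F G d
    refine ⟨n0, ?_⟩
    intro n hn H hH
    obtain ⟨o, h⟩ := h n hn H hH
    refine ⟨o, ?_⟩
    intro R _ _ t Q v A hv hfr
    let _ : Fintype R := Fintype.ofFinite R
    obtain ⟨x, hx1, hx2⟩ := h R t Q v (fun ρ => (A ρ).gates) (fun ρ => (A ρ).bit)
      (fun ρ b => (A ρ).evaluate (fun i => Satisfiable (fun C => b i C)))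
      (fun ρ => toProgram (A ρ).circuit) (fun ρ => (A ρ).size)
      (fun ρ => (A ρ).available) hv hfr
    refine ⟨x, hx1, ?_⟩
    rw [Nat.card_eq_fintype_card (α := R)]
    exact hx2
  · intro n k s Q v d A hA H
    have hmono : ∀ x x' : Edge n → Bool, x ≤ x' → HasClique k x → HasClique k x' := by
      rintro x x' hxx ⟨S, hS, h⟩
      refine ⟨S, hS, fun e he => ?_⟩
      have h8 := hxx e
      rw [h e he] at h8
      exact top_le_iff.mp h8
    have hmin : ∀ x : Edge n → Bool, HasClique k x → ∃ S : Finset (Edge n), S.card ≤ k.choose 2 ∧
        (∀ e ∈ S, x e = true) ∧ ∀ x' : Edge n → Bool, (∀ e ∈ H, e ∈ S → x' e = true) →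
        (∀ e ∉ H, x' e = x e) → HasClique k x' := by
      rintro x ⟨S, hS, h⟩
      refine ⟨univ.filter fun e : Edge n => e.1 ⊆ S, hS ▸ card_edges S,
        fun e he => h e (mem_filter.mp he).2, fun x' h1 h2 => ⟨S, hS, fun e he => ?_⟩⟩
      by_cases heH : e ∈ H
      · exact h1 e heH (mem_filter.mpr ⟨mem_univ _, he⟩)
      · rw [h2 e heH]
        exact h e he
    have hsat : ∀ b : Bool, Satisfiable (fun C : Clause v d =>
        decide (C = ⟨∅, Nat.zero_le _⟩) && b) ↔ b = false := by
      intro b
      constructor
      · rintro ⟨a, ha⟩
        rcases b with _ | _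
        · rfl
        · obtain ⟨l, hl, -⟩ := ha ⟨∅, Nat.zero_le _⟩ (by simp)
          exact absurd hl (Finset.notMem_empty _)
      · rintro rfl
        exact ⟨fun _ => true, fun C hC => by simp at hC⟩
    obtain ⟨L', out', ev', h1, h2, h3, h4⟩ := Pool.Agent.HM94.NI.avoid_red (H := H) hmono hmin
      (⟨∅, Nat.zero_le _⟩ : Clause v d) Satisfiable hsat (toProgram A.circuit) A.size A.bit
      A.available A.evaluate hA
    exact ⟨⟨L', ofProgram h1, h2, out', h3, ev'⟩, h4⟩

end Pool.Agent.Results.MP_ddf912_lc.NegatedInputs
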